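import Pool.Agent.Lib.MP_1db5af_an.ThmB

set_option autoImplicit false

namespace Pool.Agent.Lib.MP_1db5af_an.Dc

open MeasureTheory Filter Topology ComplexConjugate Finset InnerProductSpace

variable {X : Type*} [MeasurableSpace X] {μ : Measure X} [IsProbabilityMeasure μ]

/-- A finite valued process most of whose long blocks lie in a subexponential list of words. -/
def Low (μ : Measure X) {k : ℕ} (F : ℕ → X → Fin k) : Prop :=
  (∀ n, Measurable (F n)) ∧ ∀ δ : ℝ, 0 < δ → ∀ᶠ K : ℕ in atTop,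
    ∃ W : Finset (Fin K → Fin k), (W.card : ℝ) ≤ Real.exp (δ * K) ∧
      ∀ n, μ.real {x | (fun j : Fin K => F (n + j) x) ∉ W} ≤ δ

/-- Averaged exponential moment bound along the shifts of `a`. -/
def Chern (μ : Measure X) (S : X → X) (a : ℕ → ℕ) (g : X → ℂ) : Prop :=
  ∀ (la B : ℝ) (K : ℕ) (c : ℕ → ℂ), 0 ≤ la → la * B ≤ 1 → (∀ j x, ‖c j * g x‖ ≤ B) →
    ∀ᶠ N in atTop, av (fun n => ∫ x,
      Real.exp (la * (∑ j ∈ range K, c j * g (S^[a (n + j)] x)).re) ∂μ) N ≤
        2 * Real.exp (K * (la * B) ^ 2)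

omit [IsProbabilityMeasure μ] in
theorem low_one : Low μ fun (_ : ℕ) (_ : X) => (0 : Fin 1) := by
  refine ⟨fun _ => measurable_const, fun δ hδ => Eventually.of_forall fun K => ⟨univ, ?_, ?_⟩⟩
  · simpa using by positivity
  · intro n
    simpa using hδ.le

theorem low_iter {T : X → X} (hT : MeasurePreserving T μ μ) (hZ : ZeroEnt μ T) {k : ℕ}
    {ζ : X → Fin k} (hζ : Measurable ζ) : Low μ fun n x => ζ (T^[n] x) := by
  refine ⟨fun n => hζ.comp (hT.measurable.iterate n), fun δ hδ => ?_⟩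
  filter_upwards [names hT.measurable hZ hζ hδ] with K ⟨W, h1, h2⟩
  refine ⟨W, h1, fun n => le_trans (le_of_eq ?_) h2⟩
  have hA : MeasurableSet {x | (fun j : Fin K => ζ (T^[j] x)) ∉ W} :=
    (measurable_pi_lambda _ fun j : Fin K => hζ.comp (hT.measurable.iterate j))
      (MeasurableSet.of_discrete (s := {w | w ∉ W}))
  rw [← (hT.iterate n).measureReal_preimage hA.nullMeasurableSet]
  congr 1
  ext x
  simp only [Set.mem_preimage, Set.mem_ofPred_eq, ← Function.iterate_add_apply, add_comm n]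

theorem Low.prod {k l : ℕ} {F : ℕ → X → Fin k} {E : ℕ → X → Fin l} (hF : Low μ F)
    (hE : Low μ E) : Low μ fun n x => finProdFinEquiv (F n x, E n x) := by
  classical
  refine ⟨fun n => (measurable_of_countable _).comp ((hF.1 n).prodMk (hE.1 n)), fun δ hδ => ?_⟩
  filter_upwards [hF.2 _ (half_pos hδ), hE.2 _ (half_pos hδ)] with K ⟨W, h1, h2⟩ ⟨V, h3, h4⟩
  refine ⟨(W ×ˢ V).image fun p j => finProdFinEquiv (p.1 j, p.2 j), ?_, fun n => ?_⟩
  · have h5 : (((W ×ˢ V).image fun p j => finProdFinEquiv (p.1 j, p.2 j)).card : ℝ) ≤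
        W.card * V.card := by exact_mod_cast card_image_le.trans (card_product W V).le
    refine h5.trans ((mul_le_mul h1 h3 (by positivity) (by positivity)).trans (le_of_eq ?_))
    rw [← Real.exp_add]
    congr 1
    ring
  · refine le_trans (measureReal_mono (s₂ := {x | (fun j : Fin K => F (n + j) x) ∉ W} ∪
      {x | (fun j : Fin K => E (n + j) x) ∉ V}) fun x hx => ?_)
      ((measureReal_union_le _ _).trans (by linarith [h2 n, h4 n]))
    by_contra hc
    simp only [Set.mem_union, Set.mem_ofPred_eq, not_or, not_not] at hc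
    exact hx (mem_image.2 ⟨(_, _), mem_product.2 hc, rfl⟩)

end Pool.Agent.Lib.MP_1db5af_an.Dc
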