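import Pool.Agent.Lib.MP_1db5af_an.Dc.Unif
import Pool.Agent.Lib.MP_1db5af_an.Th.Fin

set_option autoImplicit false

namespace Pool.Agent.Lib.MP_1db5af_an.Dc

open MeasureTheory Filter Topology ComplexConjugate Finset InnerProductSpace

theorem chern_factor {X Y : Type*} [m0 : MeasurableSpace X] [mY : MeasurableSpace Y]
    {μ : Measure X} {ν : Measure Y} [IsProbabilityMeasure μ] [IsProbabilityMeasure ν] {S : X → X}
    {σ : Y → Y} {π : X → Y} {a : ℕ → ℕ} [StandardBorelSpace Y] (hS : MeasurePreserving S μ μ)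
    (hσ : MeasurePreserving σ ν ν) (hπ : MeasurePreserving π μ ν) (hc : Function.Semiconj π S σ)
    (H : ∀ᵐ y ∂ν, JE (ProbabilityTheory.condExpKernel ν (MeasurableSpace.invariants σ) y) σ a mY)
    {g : X → ℂ} (hg : MemLp g ⊤ μ) {h : Y → ℂ} (hh : Measurable h)
    (e : g =ᵐ[μ] fun x => h (π x)) : ∃ (g' : X → ℂ) (C : ℝ), Measurable g' ∧ (∀ x, ‖g' x‖ ≤ C) ∧
      (fun x => g x - (μ[g | MeasurableSpace.invariants S]) x) =ᵐ[μ] g' ∧ Chern μ S a g' := by
  classical
  obtain ⟨D, hD, hgD⟩ := exists_Bd hg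
  have hae : ∀ {s : Set Y}, MeasurableSet s → (∀ᵐ x ∂μ, π x ∈ s) → ∀ᵐ y ∂ν, y ∈ s :=
    fun hs h1 => by
      rw [← hπ.map_eq]
      exact (ae_map_iff hπ.measurable.aemeasurable hs).2 h1
  have hhD : Bd ν D h := ⟨hh.aestronglyMeasurable,
    hae (measurableSet_le hh.norm measurable_const) (hgD.congr e).2⟩
  have hI := MeasurableSpace.invariants_le σ
  set h0 : Y → ℂ := fun y => h y - (ν[h | MeasurableSpace.invariants σ]) y with hh0
  have m0' : Measurable h0 := hh.sub (stronglyMeasurable_condExp.mono hI).measurable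
  have b0 : Bd ν (D + D) h0 := hhD.sub hhD.condExp
  have z0 : ν[h0 | MeasurableSpace.invariants σ] =ᵐ[ν] 0 := by
    refine (condExp_sub hhD.integrable integrable_condExp _).trans ?_
    rw [condExp_of_stronglyMeasurable hI stronglyMeasurable_condExp integrable_condExp, sub_self]
  have s2 : MeasurableSet {y | ‖h0 y‖ ≤ D + D} := measurableSet_le m0'.norm measurable_const
  set h2 : Y → ℂ := {y | ‖h0 y‖ ≤ D + D}.indicator h0 with hh2
  have m2 : Measurable h2 := m0'.indicator s2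
  have e2 : h2 =ᵐ[ν] h0 := b0.2.mono fun y hy =>
    Set.indicator_of_mem (s := {y | ‖h0 y‖ ≤ D + D}) hy _
  have b2 : ∀ y, ‖h2 y‖ ≤ D + D := fun y => by
    by_cases hy : y ∈ {y | ‖h0 y‖ ≤ D + D}
    · rw [hh2, Set.indicator_of_mem hy]; exact hy
    · rw [hh2, Set.indicator_of_notMem hy, norm_zero]; linarith
  have e0 : (fun x => g x - (μ[g | MeasurableSpace.invariants S]) x) =ᵐ[μ] fun x => h2 (π x) := by
    filter_upwards [e, condExp_congr_ae (m := MeasurableSpace.invariants S) e,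
      gen_inv hS hσ hπ hc hhD, hπ.quasiMeasurePreserving.ae e2] with x x1 x2 x3 x4
    rw [x1, x2, x3, x4]
  refine ⟨fun x => h2 (π x), D + D, m2.comp hπ.measurable, fun x => b2 (π x), e0, ?_⟩
  intro la B K c hla hB hcB
  obtain ⟨x0⟩ := nonempty_of_isProbabilityMeasure μ
  have hB0 : 0 ≤ B := (norm_nonneg _).trans (hcB 0 x0)
  have s3 : MeasurableSet {y | ∀ j, ‖c j * h2 y‖ ≤ B} := by
    rw [Set.ofPred_forall]
    exact MeasurableSet.iInter fun j => measurableSet_le (m2.const_mul _).norm measurable_const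
  set h3' : Y → ℂ := {y | ∀ j, ‖c j * h2 y‖ ≤ B}.indicator h2 with hh3
  have m3 : Measurable h3' := m2.indicator s3
  have e3 : ∀ x, h3' (π x) = h2 (π x) := fun x =>
    Set.indicator_of_mem (s := {y | ∀ j, ‖c j * h2 y‖ ≤ B}) (fun j => hcB j x) _
  have e4 : h3' =ᵐ[ν] h0 := by
    filter_upwards [hae s3 (Eventually.of_forall fun x j => hcB j x), e2] with y y1 y2
    rw [hh3, Set.indicator_of_mem (s := {y | ∀ j, ‖c j * h2 y‖ ≤ B}) y1, y2]
  have b3 : ∀ y, ‖h3' y‖ ≤ D + D := fun y => (norm_indicator_le_norm_self _ _).trans (b2 y)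
  have b4 : ∀ j y, ‖c j * h3' y‖ ≤ B := fun j y => by
    by_cases hy : y ∈ {y | ∀ j, ‖c j * h2 y‖ ≤ B}
    · rw [hh3, Set.indicator_of_mem hy]; exact hy j
    · rw [hh3, Set.indicator_of_notMem hy, mul_zero, norm_zero]; exact hB0
  filter_upwards [ae_chernoff hσ.measurable H m3 ((condExp_congr_ae e4).trans z0) b3 la B K c hla
    hB b4] with N hN
  refine le_trans (le_of_eq ?_) hN
  congr 1
  funext n
  have mF : Measurable fun y =>
      Real.exp (la * (∑ j ∈ range K, c j * h3' (σ^[a (n + j)] y)).re) :=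
    ((Complex.measurable_re.comp (Finset.measurable_sum _ fun j _ =>
      (m3.comp (hσ.measurable.iterate _)).const_mul _)).const_mul la).exp
  rw [← hπ.map_eq, integral_map hπ.measurable.aemeasurable mF.aestronglyMeasurable]
  simp only [← (hc.iterate_right _).eq, e3]

variable {X : Type*} [m0 : MeasurableSpace X] {μ : Measure X} [IsProbabilityMeasure μ]
  {S : X → X} {a : ℕ → ℕ}

theorem chern_full (hS : MeasurePreserving S μ μ) (h1 : Weyl a) (h2 : Monotone a) (h3 : Gap a)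
    {g : X → ℂ} (hg : MemLp g ⊤ μ) : ∃ (g' : X → ℂ) (C : ℝ), Measurable g' ∧
      (∀ x, ‖g' x‖ ≤ C) ∧ (fun x => g x - (μ[g | MeasurableSpace.invariants S]) x) =ᵐ[μ] g' ∧
        Chern μ S a g' := by
  classical
  let g' := hg.1.mk g
  have hg' : Measurable g' := hg.1.stronglyMeasurable_mk.measurable
  let π : X → ℕ → ℂ := fun x j => g' (S^[j] x)
  let σ : (ℕ → ℂ) → ℕ → ℂ := fun y j => y (j + 1)
  have hπm : Measurable π := measurable_pi_lambda _ fun j => hg'.comp (hS.measurable.iterate j)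
  have hσm : Measurable σ := measurable_pi_lambda _ fun j => measurable_pi_apply (j + 1)
  have hc : Function.Semiconj π S σ := fun x => rfl
  have : IsProbabilityMeasure (μ.map π) := Measure.isProbabilityMeasure_map hπm.aemeasurable
  have hπ : MeasurePreserving π μ (μ.map π) := ⟨hπm, rfl⟩
  have hσ : MeasurePreserving σ (μ.map π) (μ.map π) := ⟨hσm, by
    rw [Measure.map_map hσm hπm, ← hc.comp_eq, ← Measure.map_map hπm hS.measurable, hS.map_eq]⟩
  refine chern_factor hS hσ hπ hc ?_ hg (measurable_pi_apply 0) hg.1.ae_eq_mk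
  filter_upwards [ae_ergdec hσ] with y hy
  exact Th.je_erg hy h1 h2 h3

theorem decouple (hS : MeasurePreserving S μ μ) (h1 : Weyl a) (h2 : Monotone a) (h3 : Gap a)
    {ι : Type*} [Fintype ι] {T : ι → X → X} (hT : ∀ i, MeasurePreserving (T i) μ μ)
    (hZ : ∀ i, ZeroEnt μ (T i)) {f : ι → X → ℂ} (hf : ∀ i, MemLp (f i) ⊤ μ) {g : X → ℂ}
    (hg : MemLp g ⊤ μ) {Y : Type*} [UniformSpace Y] [CompactSpace Y] {R : Y → Y}
    (h0 : Dynamics.coverEntropy R Set.univ = 0) {w : Y → ℂ} (hw : Continuous w) :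
    Tendsto (fun N : ℕ => eLpNorm (fun x => ⨆ y : Y, ‖(N : ℂ)⁻¹ *
      ∑ n ∈ Icc 1 N, w (R^[n] y) * (∏ i, f i ((T i)^[n] x)) *
        (g (S^[a n] x) - (μ[g | MeasurableSpace.invariants S]) x)‖) 2 μ) atTop (𝓝 0) := by
  obtain ⟨g', C, m1, b1, e1, c1⟩ := chern_full hS h1 h2 h3 hg
  choose D hD hfD using fun i => exists_Bd (hf i)
  have hb : ∀ i, Bd μ (∑ i, D i) (f i) := fun i => (hfD i).mono
    (single_le_sum (f := D) (fun j _ => zero_le_one.trans (hD j)) (mem_univ i))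
  have hY : Nonempty Y := by
    by_contra hc
    rw [not_nonempty_iff] at hc
    rw [Set.univ_eq_empty_iff.2 hc, Dynamics.coverEntropy_empty] at h0
    exact EReal.bot_ne_zero h0
  obtain ⟨M, hM⟩ := (isCompact_range hw.norm).bddAbove
  have hM1 : ∀ y, ‖w y‖ ≤ M := fun y => hM ⟨y, rfl⟩
  have hM0 : 0 ≤ M := (norm_nonneg _).trans (hM1 hY.some)
  have h4 := unif_multi hS hM0 hM1 (net_of_entropy h0 hw) m1 b1 c1 hT hZ hb univ low_one
    fun _ => 1
  simp only [one_mul] at h4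
  have hgb : Bd μ C g' := ⟨m1.aestronglyMeasurable, Eventually.of_forall b1⟩
  have bu : ∀ n, Bd μ ((∑ i, D i) ^ (univ : Finset ι).card * C) fun x =>
      (∏ i, f i ((T i)^[n] x)) * g' (S^[a n] x) := fun n =>
    (Bd.prod univ fun i _ => (hb i).iter (hT i) n).mul (hgb.iter hS _)
  set E := (∑ i, D i) ^ (univ : Finset ι).card * C
  have hE := (bu 0).nonneg
  have hsh : Tendsto (fun N : ℕ => (N : ℝ)⁻¹ * (2 * (1 : ℕ) * (M * E))) atTop (𝓝 0) := by
    simpa using (tendsto_inv_atTop_nhds_zero_nat (𝕜 := ℝ)).mul_const (2 * (1 : ℕ) * (M * E))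
  refine ENNReal.tendsto_nhds_zero.2 fun ε0 hε0 => ?_
  obtain ⟨ε, hε, hε1⟩ : ∃ ε : ℝ, 0 < ε ∧ ENNReal.ofReal ε ≤ ε0 := by
    obtain ⟨ε, -, h5, h6⟩ := ENNReal.lt_iff_exists_real_btwn.1 hε0
    exact ⟨ε, ENNReal.ofReal_pos.1 h5, h6.le⟩
  filter_upwards [h4 (ε ^ 2 / 4) (by positivity), hsh.eventually (gt_mem_nhds (half_pos hε))]
    with N ⟨h, i1, i2, i3⟩ hN
  refine (eLp_le (h := fun x => 2 * (ε / 2) ^ 2 + 2 * h x)
    ((integrable_const _).add (i1.const_mul _)) hε.le ?_ ?_).trans hε1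
  · rw [integral_add (integrable_const _) (i1.const_mul _), integral_const_mul,
      integral_const_mul]
    simp only [integral_const, probReal_univ, one_smul]
    linarith
  filter_upwards [ae_all_iff.2 fun n => (hS.iterate n).quasiMeasurePreserving.ae e1, i3,
    ae_all_iff.2 fun n => (bu n).2] with x hx j1 j2
  have e2 : ∀ n, g (S^[n] x) - (μ[g | MeasurableSpace.invariants S]) x = g' (S^[n] x) :=
    fun n => by rw [← hx n, condExp_inv_iter g n x]
  have j3 : 0 ≤ 2 * (ε / 2) ^ 2 + 2 * h x := by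
    have := (sq_nonneg _).trans (j1 hY.some)
    positivity
  rw [← Real.le_sqrt (Real.iSup_nonneg fun y => norm_nonneg _) j3]
  refine Real.iSup_le (fun y => ?_) (Real.sqrt_nonneg _)
  rw [Real.le_sqrt (norm_nonneg _) j3]
  have j4 := shift_one (u := fun n => w (R^[n] y) * ((∏ i, f i ((T i)^[n] x)) * g' (S^[a n] x)))
    (fun n => (norm_mul_le _ _).trans (mul_le_mul (hM1 _) (j2 n) (norm_nonneg _) hM0)) 1 N
  rw [norm_sub_rev] at j4
  refine le_trans (le_of_eq ?_) (sq_le_two (norm_nonneg _) ((norm_le_norm_sub_add _ _).trans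
    (add_le_add (j4.trans hN.le) le_rfl)) (j1 y))
  rw [av, Complex.real_smul, Finset.range_eq_Ico, Finset.sum_Ico_add'
    (fun n => w (R^[n] y) * ((∏ i, f i ((T i)^[n] x)) * g' (S^[a n] x))) 0 N 1]
  simp only [e2, mul_assoc]
  push_cast
  rfl

end Pool.Agent.Lib.MP_1db5af_an.Dc
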