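import Pool.Agent.Lib.MP_1db5af_an.Dc.Low

set_option autoImplicit false

namespace Pool.Agent.Lib.MP_1db5af_an.Dc

open MeasureTheory Filter Topology ComplexConjugate Finset InnerProductSpace

variable {X Y : Type*} [MeasurableSpace X] {μ : Measure X} [IsProbabilityMeasure μ] {S : X → X}
  {a : ℕ → ℕ} {C M : ℝ} {R : Y → Y} {w : Y → ℂ}

/-- Orbit blocks of `w` along `R` have subexponential nets. -/
def Net (R : Y → Y) (w : Y → ℂ) : Prop :=
  ∀ δ : ℝ, 0 < δ → ∀ᶠ K : ℕ in atTop, ∃ V : Finset Y, (V.card : ℝ) ≤ Real.exp (δ * K) ∧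
    ∀ y, ∃ v ∈ V, ∀ j < K, ‖w (R^[j] y) - w (R^[j] v)‖ ≤ δ

/-- The weighted averages are small in mean square, uniformly in the orbit. -/
def Small (μ : Measure X) (R : Y → Y) (w : Y → ℂ) (u : ℕ → X → ℂ) : Prop :=
  ∀ ε : ℝ, 0 < ε → ∀ᶠ N in atTop, ∃ h : X → ℝ, Integrable h μ ∧ ∫ x, h x ∂μ ≤ ε ∧
    ∀ᵐ x ∂μ, ∀ y, ‖av (fun n => w (R^[n] y) * u n x) N‖ ^ 2 ≤ h x

theorem net_of_entropy [UniformSpace Y] [CompactSpace Y]
    (h0 : Dynamics.coverEntropy R Set.univ = 0) (hw : Continuous w) : Net R w := by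
  intro δ hδ
  have hU : {p : Y × Y | dist (w p.1) (w p.2) < δ} ∈ uniformity Y :=
    CompactSpace.uniformContinuous_of_continuous hw (Metric.dist_mem_uniformity hδ)
  have h1 := (Dynamics.coverEntropyEntourage_le_coverEntropy R Set.univ hU).trans_lt
    (h0.trans_lt (EReal.coe_pos.2 hδ))
  filter_upwards [ExpGrowth.eventually_le_exp h1] with K hK
  obtain ⟨V, h2, h3⟩ := (Dynamics.coverMincard_finite_iff R Set.univ _ K).1
    (Dynamics.coverMincard_finite_of_isCompact_invariant isCompact_univ (Set.mapsTo_univ _ _) hU K)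
  refine ⟨V, ?_, fun y => ?_⟩
  · rw [← h3, ← EReal.coe_natCast, ← EReal.coe_mul, EReal.exp_coe] at hK
    have h4 : ((V.card : ℕ) : ENNReal) ≤ ENNReal.ofReal (Real.exp (δ * K)) := by simpa using hK
    rw [← ENNReal.ofReal_natCast] at h4
    exact (ENNReal.ofReal_le_ofReal_iff (Real.exp_pos _).le).1 h4
  · obtain ⟨v, hv, h4⟩ := h2 (Set.mem_univ y)
    refine ⟨v, hv, fun j hj => ?_⟩
    have h5 := Dynamics.mem_dynEntourage.1 h4 j hj
    rw [← dist_eq_norm]
    exact le_of_lt h5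

theorem shift_one {u : ℕ → ℂ} (h : ∀ n, ‖u n‖ ≤ C) (L N : ℕ) :
    ‖av u N - av (fun n => u (n + L)) N‖ ≤ (N : ℝ)⁻¹ * (2 * L * C) := by
  rw [norm_sub_rev]
  simp only [av, ← smul_sub, norm_smul, norm_inv, Real.norm_natCast]
  gcongr
  exact norm_sum_shift_le h L N

theorem shift_le {u : ℕ → ℂ} (h : ∀ n, ‖u n‖ ≤ C) {K : ℕ} (hK : 0 < K) (N : ℕ) :
    ‖av u N - av (fun n => av (fun j => u (n + j)) K) N‖ ≤ (N : ℝ)⁻¹ * (2 * K * C) := by
  have hC : 0 ≤ C := (norm_nonneg _).trans (h 0)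
  have h2 : av (fun n => av (fun j => u (n + j)) K) N =
      av (fun j => av (fun n => u (n + j)) N) K := by
    simp only [av, ← smul_sum]
    rw [smul_comm, sum_comm]
  rw [h2, ← av_const (av u N) hK, ← av_sub]
  refine (norm_av_le_av _ K).trans (av_le (by positivity) fun j hj => (shift_one h j N).trans ?_)
  have : (j : ℝ) ≤ K := by exact_mod_cast hj.le
  gcongr

theorem pt {ι : Type*} (P : Finset ι) (c : ι → ℕ → ℂ) (y : ℕ → ℂ) {K : ℕ} (hK : 0 < K) {p : ι}
    (hp : p ∈ P) {B ε la : ℝ} (hB : ∀ j, ‖c p j * y j‖ ≤ B) (hla : 0 ≤ la) :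
    ‖av (fun j => c p j * y j) K‖ ^ 2 ≤ 2 * ε ^ 2 + B ^ 2 * Real.exp (-(la * K * ε)) *
      ∑ q ∈ P ×ˢ (univ : Finset (Fin 4)),
        Real.exp (la * (∑ j ∈ range K, blockOm q.2 * c q.1 j * y j).re) := by
  have hK1 : (0 : ℝ) < K := by exact_mod_cast hK
  refine (block_norm_sq (ε := ε) (norm_av_le hB K) (mul_nonneg hla hK1.le)).trans
    (add_le_add le_rfl ?_)
  rw [mul_assoc, sum_product]
  refine mul_le_mul_of_nonneg_left ?_ (sq_nonneg _)
  refine le_trans (le_of_eq ?_) (mul_le_mul_of_nonneg_left (single_le_sum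
    (f := fun q => ∑ i, Real.exp (la * (∑ j ∈ range K, blockOm i * c q j * y j).re))
    (fun w _ => by positivity) hp) (Real.exp_pos _).le)
  rw [mul_sum]
  refine sum_congr rfl fun i _ => ?_
  simp only [mul_assoc (blockOm i), ← mul_sum]
  rw [← Real.exp_add, av, mul_smul_comm, Complex.smul_re, smul_eq_mul]
  congr 1
  field_simp
  ring

omit [IsProbabilityMeasure μ] in
theorem int_av {u : ℕ → X → ℝ} (h : ∀ n, Integrable (u n) μ) (N : ℕ) :
    Integrable (fun x => av (fun n => u n x) N) μ ∧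
      ∫ x, av (fun n => u n x) N ∂μ = av (fun n => ∫ x, u n x ∂μ) N := by
  simp only [av, smul_eq_mul]
  refine ⟨(integrable_finsetSum _ fun n _ => h n).const_mul _, ?_⟩
  rw [integral_const_mul, integral_finsetSum _ fun n _ => h n]

theorem sq_le_two {s p q r : ℝ} (h0 : 0 ≤ s) (h : s ≤ p + q) (h1 : q ^ 2 ≤ r) :
    s ^ 2 ≤ 2 * p ^ 2 + 2 * r := by
  nlinarith [sq_nonneg (p - q), pow_le_pow_left₀ h0 h 2]

theorem unif_block (hS : MeasurePreserving S μ μ) (hM : 0 ≤ M) (hw : ∀ y, ‖w y‖ ≤ M)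
    (hN : Net R w) {k : ℕ} {F : ℕ → X → Fin k} (hF : Low μ F) (φ : Fin k → ℂ) {g : X → ℂ}
    (hgm : Measurable g) (hg : ∀ x, ‖g x‖ ≤ C) (H : Chern μ S a g) :
    Small μ R w fun n x => φ (F n x) * g (S^[a n] x) := by
  classical
  obtain ⟨B, hB1, hB, hB'⟩ : ∃ B : ℝ, 1 ≤ B ∧ (∀ i x, ‖φ i * g x‖ ≤ B) ∧
      ∀ y i x, ‖w y * (φ i * g x)‖ ≤ B := by
    obtain ⟨B, hB⟩ := (Set.finite_range fun i : Fin k => ‖φ i‖ * C).bddAbove
    have h1 : ∀ i x, ‖φ i * g x‖ ≤ max 1 B := fun i x => by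
      refine le_trans ?_ ((hB ⟨i, rfl⟩).trans (le_max_right _ _))
      rw [norm_mul]
      exact mul_le_mul_of_nonneg_left (hg x) (norm_nonneg _)
    have h2 := le_max_left 1 B
    refine ⟨(M + 1) * max 1 B, by nlinarith, fun i x => (h1 i x).trans (by nlinarith),
      fun y i x => ?_⟩
    rw [norm_mul]
    exact mul_le_mul ((hw y).trans (by linarith)) (h1 i x) (norm_nonneg _) (by linarith)
  have hB0 : 0 < B := by linarith
  have hmg : ∀ n, Measurable fun x => g (S^[n] x) := fun n =>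
    hgm.comp (hS.measurable.iterate n)
  intro ε0 hε0
  obtain ⟨ε, hε, hε1, hε2⟩ : ∃ ε : ℝ, 0 < ε ∧ ε ≤ 1 ∧ 10 * ε ≤ ε0 :=
    ⟨min 1 (ε0 / 10), by positivity, min_le_left _ _, by linarith [min_le_right 1 (ε0 / 10)]⟩
  set δ : ℝ := ε ^ 2 / (8 * B ^ 2) with hδ
  set la : ℝ := ε / (2 * B ^ 2) with hla
  have hδ0 : 0 < δ := by positivity
  have hla0 : 0 ≤ la := by positivity
  have hlaB : la * B ≤ 1 := by
    rw [hla, div_mul_eq_mul_div, div_le_one (by positivity)]
    nlinarith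
  have h3 : B ^ 2 * δ = ε ^ 2 / 8 := by
    rw [hδ]
    field_simp
  have hexp : Tendsto (fun K : ℕ => 8 * B ^ 2 * Real.exp (-(δ * K))) atTop (𝓝 0) := by
    have h1 := (Real.tendsto_exp_neg_atTop_nhds_zero.comp
      (tendsto_natCast_atTop_atTop.const_mul_atTop hδ0)).const_mul (8 * B ^ 2)
    rwa [mul_zero] at h1
  obtain ⟨K, ⟨W, hW1, hW2⟩, ⟨V, hV1, hV2⟩, hK, hK0⟩ := ((hF.2 _ (half_pos hδ0)).and
    ((hN _ (half_pos hδ0)).and ((hexp.eventually (gt_mem_nhds (pow_pos hε 2))).and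
      (eventually_gt_atTop 0)))).exists
  set c : Y × (Fin K → Fin k) → ℕ → ℂ := fun p j =>
    if h : j < K then w (R^[j] p.1) * φ (p.2 ⟨j, h⟩) else 0 with hcd
  have hc0 : ∀ p j x, ‖c p j * g x‖ ≤ B := fun p j x => by
    simp only [hcd]
    split_ifs with h
    · rw [mul_assoc]
      exact hB' _ _ _
    · simpa using hB0.le
  have hc : ∀ (q : (Y × (Fin K → Fin k)) × Fin 4) j x, ‖blockOm q.2 * c q.1 j * g x‖ ≤ B :=
    fun q j x => by
      rw [mul_assoc, norm_mul, blockOm_norm, one_mul]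
      exact hc0 _ _ _
  have hsh : Tendsto (fun N : ℕ => (N : ℝ)⁻¹ * (2 * K * B)) atTop (𝓝 0) := by
    simpa using (tendsto_inv_atTop_nhds_zero_nat (𝕜 := ℝ)).mul_const (2 * K * B)
  filter_upwards [(eventually_all_finset ((V ×ˢ W) ×ˢ (univ : Finset (Fin 4)))).2 fun q _ =>
    H la B K (fun j => blockOm q.2 * c q.1 j) hla0 hlaB (hc q), eventually_gt_atTop 0,
    hsh.eventually (gt_mem_nhds (half_pos hε))] with N hN hN0 hN1
  have hA : ∀ n, MeasurableSet {x | (fun j : Fin K => F (n + j) x) ∉ W} := fun n =>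
    (measurable_pi_lambda _ fun j : Fin K => hF.1 (n + j))
      (MeasurableSet.of_discrete (s := {w | w ∉ W}))
  have hie : ∀ n (q : (Y × (Fin K → Fin k)) × Fin 4), Integrable (fun x => Real.exp (la *
      (∑ j ∈ range K, blockOm q.2 * c q.1 j * g (S^[a (n + j)] x)).re)) μ := fun n q => by
    refine Integrable.of_bound (Measurable.aestronglyMeasurable ?_) (Real.exp (la * (K * B)))
      (Eventually.of_forall fun x => ?_)
    · exact ((Complex.measurable_re.comp (Finset.measurable_sum _ fun j _ =>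
        (hmg _).const_mul _)).const_mul la).exp
    · rw [Real.norm_eq_abs, Real.abs_exp]
      refine Real.exp_le_exp.2 (mul_le_mul_of_nonneg_left ((Complex.re_le_norm _).trans
        ((norm_sum_le_of_le _ fun j _ => hc q j _).trans ?_)) hla0)
      simp
  set Q : ℕ → X → ℝ := fun n x =>
    B ^ 2 * {x | (fun j : Fin K => F (n + j) x) ∉ W}.indicator (1 : X → ℝ) x + 2 * ε ^ 2 +
      B ^ 2 * Real.exp (-(la * K * ε)) * ∑ q ∈ (V ×ˢ W) ×ˢ (univ : Finset (Fin 4)),
        Real.exp (la * (∑ j ∈ range K, blockOm q.2 * c q.1 j * g (S^[a (n + j)] x)).re) with hQ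
  have hi1 : ∀ n, Integrable (fun x => B ^ 2 *
      {x | (fun j : Fin K => F (n + j) x) ∉ W}.indicator (1 : X → ℝ) x) μ := fun n =>
    ((integrable_const (1 : ℝ)).indicator (hA n)).const_mul _
  have hi2 := fun n => (integrable_finsetSum ((V ×ˢ W) ×ˢ (univ : Finset (Fin 4))) fun p _ =>
    hie n p).const_mul (B ^ 2 * Real.exp (-(la * K * ε)))
  have hQi : ∀ n, Integrable (Q n) μ := fun n =>
    ((hi1 n).add (integrable_const (2 * ε ^ 2))).add (hi2 n)
  have hn : ∀ n, ∫ x, Q n x ∂μ ≤ (B ^ 2 * δ + 2 * ε ^ 2) + B ^ 2 * Real.exp (-(la * K * ε)) *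
      ∑ q ∈ (V ×ˢ W) ×ˢ (univ : Finset (Fin 4)), ∫ x, Real.exp (la *
        (∑ j ∈ range K, blockOm q.2 * c q.1 j * g (S^[a (n + j)] x)).re) ∂μ := fun n => by
    simp only [hQ]
    rw [integral_add (by exact (hi1 n).add (integrable_const (2 * ε ^ 2))) (hi2 n),
      integral_add (hi1 n) (integrable_const _), integral_const_mul, integral_const_mul,
      integral_const_mul, integral_indicator_one (hA n),
      integral_finsetSum _ fun p _ => hie n p]
    simp only [integral_const, probReal_univ, one_smul]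
    gcongr
    exact (hW2 n).trans (half_le_self hδ0.le)
  refine ⟨fun x => 2 * ε ^ 2 + 2 * av (fun n => Q n x) N,
    (integrable_const _).add ((int_av hQi N).1.const_mul _), ?_,
    Eventually.of_forall fun x y => ?_⟩
  · rw [integral_add (integrable_const _) ((int_av hQi N).1.const_mul _), integral_const_mul,
      integral_const_mul, (int_av hQi N).2]
    simp only [integral_const, probReal_univ, one_smul]
    have h0 := av_mono (N := N) fun n _ => hn n
    rw [av_add, av_const _ hN0, av_rmul, av_sum] at h0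
    have h1 := sum_le_card_nsmul _ _ _ hN
    rw [card_product, card_product, card_univ, Fintype.card_fin, nsmul_eq_mul, Nat.cast_mul,
      Nat.cast_mul] at h1
    have h2 : Real.exp (-(la * K * ε)) * (Real.exp (δ / 2 * K) * Real.exp (δ / 2 * K) *
        Real.exp (K * (la * B) ^ 2)) = Real.exp (-(δ * K)) := by
      rw [← Real.exp_add, ← Real.exp_add, ← Real.exp_add, hδ, hla]
      congr 1
      field_simp
      ring
    have h4 : B ^ 2 * Real.exp (-(la * K * ε)) * ((V.card : ℝ) * (W.card : ℝ) * ((4 : ℕ) : ℝ) *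
        (2 * Real.exp (K * (la * B) ^ 2))) ≤ 8 * B ^ 2 * Real.exp (-(δ * K)) := by
      rw [← h2]
      calc _ ≤ B ^ 2 * Real.exp (-(la * K * ε)) * (Real.exp (δ / 2 * K) * Real.exp (δ / 2 * K) *
            ((4 : ℕ) : ℝ) * (2 * Real.exp (K * (la * B) ^ 2))) := by gcongr
        _ = _ := by push_cast; ring
    have h5 := mul_le_mul_of_nonneg_left h1
      (by positivity : 0 ≤ B ^ 2 * Real.exp (-(la * K * ε)))
    nlinarith [sq_nonneg ε]
  · choose v hv1 hv2 using fun n => hV2 (R^[n] y)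
    set r : ℕ → ℝ := fun n => ‖av (fun j => w (R^[j] (v n)) *
      (φ (F (n + j) x) * g (S^[a (n + j)] x))) K‖ with hr
    have h1 : ∀ n, r n ^ 2 ≤ Q n x := fun n => by
      simp only [hQ, hr]
      by_cases hx : (fun j : Fin K => F (n + j) x) ∈ W
      · rw [Set.indicator_of_notMem (not_not.2 hx), mul_zero, zero_add]
        refine le_trans (le_of_eq ?_) (pt (V ×ˢ W) c (fun j => g (S^[a (n + j)] x)) hK0
          (p := (v n, fun j : Fin K => F (n + j) x)) (mem_product.2 ⟨hv1 n, hx⟩)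
          (fun j => hc0 _ _ _) hla0)
        simp only [av]
        congr 3
        refine sum_congr rfl fun j hj => ?_
        simp only [hcd]
        rw [dif_pos (mem_range.1 hj), mul_assoc]
      · rw [Set.indicator_of_mem (by exact hx), Pi.one_apply, mul_one]
        have h2 := pow_le_pow_left₀ (norm_nonneg _) (norm_av_le (fun j => hB' (R^[j] (v n))
          (F (n + j) x) (S^[a (n + j)] x)) K) 2
        have h0 : 0 ≤ B ^ 2 * Real.exp (-(la * K * ε)) *
          ∑ q ∈ (V ×ˢ W) ×ˢ (univ : Finset (Fin 4)), Real.exp (la *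
            (∑ j ∈ range K, blockOm q.2 * c q.1 j * g (S^[a (n + j)] x)).re) := by positivity
        nlinarith [sq_nonneg ε]
    have h2 : ∀ n, ‖av (fun j => w (R^[n + j] y) * (φ (F (n + j) x) * g (S^[a (n + j)] x))) K‖ ≤
        ε / 2 + r n := fun n => by
      refine (norm_le_norm_sub_add _ _).trans (add_le_add ?_ le_rfl)
      rw [← av_sub]
      refine (norm_av_le_av _ K).trans (av_le (by positivity) fun j hj => ?_)
      rw [← sub_mul, norm_mul, add_comm n j, Function.iterate_add_apply]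
      refine (mul_le_mul (hv2 n j hj) (hB _ _) (norm_nonneg _) (by positivity)).trans ?_
      nlinarith
    have h4 := shift_le (fun n => hB' (R^[n] y) (F n x) (S^[a n] x)) hK0 N
    have h5 := (norm_av_le_av _ N).trans (av_mono (N := N) fun n _ => h2 n)
    rw [av_add, av_const _ hN0] at h5
    refine sq_le_two (norm_nonneg _) ((norm_le_norm_sub_add _ _).trans
      ((add_le_add h4 h5).trans ?_)) ((sq_av_le r N).trans (av_mono fun n _ => h1 n))
    linarith

omit [IsProbabilityMeasure μ] in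
theorem Small.approx (hw : ∀ y, ‖w y‖ ≤ M) {u : ℕ → X → ℂ}
    (h : ∀ ε : ℝ, 0 < ε → ∃ u' : ℕ → X → ℂ, Small μ R w u' ∧
      ∀ n, MemLp (fun x => u n x - u' n x) 2 μ ∧ ‖L2 μ fun x => u n x - u' n x‖ ≤ ε) :
    Small μ R w u := by
  intro ε0 hε0
  obtain ⟨ε, hε, hε1, hε2⟩ : ∃ ε : ℝ, 0 < ε ∧ ε ≤ 1 ∧ (2 * M ^ 2 + 2) * ε ≤ ε0 := by
    refine ⟨min 1 (ε0 / (2 * M ^ 2 + 2)), by positivity, min_le_left _ _, ?_⟩
    rw [mul_comm, ← le_div_iff₀ (by positivity)]
    exact min_le_right _ _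
  obtain ⟨u', h1, h2⟩ := h ε hε
  have hi : ∀ n, Integrable (fun x => ‖u n x - u' n x‖ ^ 2) μ := fun n =>
    (h2 n).1.norm.integrable_sq
  filter_upwards [h1 ε hε] with N ⟨h, h3, h4, h5⟩
  refine ⟨fun x => 2 * h x + 2 * (M ^ 2 * av (fun n => ‖u n x - u' n x‖ ^ 2) N),
    (h3.const_mul _).add (((int_av hi N).1.const_mul _).const_mul _), ?_, ?_⟩
  · rw [integral_add (h3.const_mul _) (((int_av hi N).1.const_mul _).const_mul _),
      integral_const_mul, integral_const_mul, integral_const_mul, (int_av hi N).2]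
    have h6 : av (fun n => ∫ x, ‖u n x - u' n x‖ ^ 2 ∂μ) N ≤ ε :=
      av_le hε.le fun n _ => by
        rw [← norm_L2_sq (h2 n).1]
        nlinarith [pow_le_pow_left₀ (norm_nonneg _) (h2 n).2 2]
    nlinarith [mul_le_mul_of_nonneg_left h6 (sq_nonneg M)]
  · filter_upwards [h5] with x hx y
    have h6 : ‖av (fun n => w (R^[n] y) * u n x) N - av (fun n => w (R^[n] y) * u' n x) N‖ ≤
        M * av (fun n => ‖u n x - u' n x‖) N := by
      rw [← av_sub, ← av_rmul]
      refine (norm_av_le_av _ N).trans (av_mono fun n _ => ?_)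
      rw [← mul_sub, norm_mul]
      gcongr
      exact hw _
    have h7 := sq_le_two (norm_nonneg _) ((norm_le_norm_sub_add _ _).trans
      (add_le_add h6 le_rfl)) (hx y)
    rw [mul_pow] at h7
    nlinarith [mul_le_mul_of_nonneg_left (sq_av_le (fun n => ‖u n x - u' n x‖) N) (sq_nonneg M)]

theorem unif_multi (hS : MeasurePreserving S μ μ) (hM : 0 ≤ M) (hw : ∀ y, ‖w y‖ ≤ M)
    (hN : Net R w) {g : X → ℂ} (hgm : Measurable g)
    (hg : ∀ x, ‖g x‖ ≤ C) (H : Chern μ S a g) {ι : Type*} {T : ι → X → X}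
    (hT : ∀ i, MeasurePreserving (T i) μ μ) (hZ : ∀ i, ZeroEnt μ (T i)) {f : ι → X → ℂ} {D : ℝ}
    (hf : ∀ i, Bd μ D (f i)) (I : Finset ι) {k : ℕ} {F : ℕ → X → Fin k} (hF : Low μ F)
    (φ : Fin k → ℂ) : Small μ R w fun n x =>
      φ (F n x) * (∏ i ∈ I, f i ((T i)^[n] x)) * g (S^[a n] x) := by
  classical
  induction I using Finset.induction_on generalizing k with
  | empty => simpa using unif_block hS hM hw hN hF φ hgm hg H
  | insert i I hi ih =>
    have hgb : Bd μ C g := ⟨hgm.aestronglyMeasurable, Eventually.of_forall hg⟩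
    have hu : ∀ n, Bd μ ((∑ i, ‖φ i‖) * D ^ I.card * C) fun x =>
        φ (F n x) * (∏ i ∈ I, f i ((T i)^[n] x)) * g (S^[a n] x) := fun n =>
      ((thmb_bd (hF.1 n) φ).mul (Bd.prod I fun i _ => (hf i).iter (hT i) n)).mul
        (hgb.iter hS _)
    set E := (∑ i, ‖φ i‖) * D ^ I.card * C
    have hE := (hu 0).nonneg
    refine Small.approx hw fun ε hε => ?_
    obtain ⟨l, ζ, ψ, h1, h2, h3⟩ := thmb_simple (hf i).memLp
      (show 0 < ε / (E + 1) by positivity)
    refine ⟨_, ih (hF.prod (low_iter (hT i) (hZ i) h1))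
      fun u => φ (finProdFinEquiv.symm u).1 * ψ (finProdFinEquiv.symm u).2, fun n => ?_⟩
    have e0 : MemLp (fun x => f i x - ψ (ζ x)) 2 μ := (hf i).memLp.sub h2
    have e1 : MemLp (fun x => f i ((T i)^[n] x) - ψ (ζ ((T i)^[n] x))) 2 μ :=
      e0.comp_measurePreserving ((hT i).iterate n)
    have e2 := norm_L2_comp ((hT i).iterate n) e0
    rw [L2_sub (hf i).memLp h2] at e2
    have e3 : (fun x => φ (F n x) * (∏ j ∈ insert i I, f j ((T j)^[n] x)) * g (S^[a n] x) -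
        φ (F n x) * ψ (ζ ((T i)^[n] x)) * (∏ j ∈ I, f j ((T j)^[n] x)) * g (S^[a n] x)) =
        fun x => φ (F n x) * (∏ j ∈ I, f j ((T j)^[n] x)) * g (S^[a n] x) *
          (f i ((T i)^[n] x) - ψ (ζ ((T i)^[n] x))) := by
      funext x
      rw [prod_insert hi]
      ring
    simp only [Equiv.symm_apply_apply, e3]
    refine ⟨(hu n).memLp_mul e1, ((hu n).norm_L2_mul e1).trans ?_⟩
    rw [e2]
    calc _ ≤ (E + 1) * (ε / (E + 1)) := by gcongr; linarith
      _ = ε := by field_simp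

omit [IsProbabilityMeasure μ] in
theorem eLp_le {s h : X → ℝ} (hi : Integrable h μ) {ε : ℝ} (hε : 0 ≤ ε)
    (h1 : ∫ x, h x ∂μ ≤ ε ^ 2) (h2 : ∀ᵐ x ∂μ, s x ^ 2 ≤ h x) :
    eLpNorm s 2 μ ≤ ENNReal.ofReal ε := by
  rw [eLpNorm_eq_lintegral_rpow_enorm_toReal two_ne_zero ENNReal.ofNat_ne_top]
  have h3 : ∫⁻ x, ‖s x‖ₑ ^ (2 : ENNReal).toReal ∂μ ≤ ENNReal.ofReal ε ^ (2 : ℝ) := by
    refine le_trans (lintegral_mono_ae (g := fun x => ENNReal.ofReal (h x)) ?_) ?_
    · filter_upwards [h2] with x hx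
      rw [← ofReal_norm, ENNReal.toReal_ofNat,
        ENNReal.ofReal_rpow_of_nonneg (norm_nonneg _) zero_le_two]
      refine ENNReal.ofReal_le_ofReal ?_
      rwa [Real.rpow_two, Real.norm_eq_abs, sq_abs]
    · rw [← ofReal_integral_eq_lintegral_ofReal hi (h2.mono fun x hx => (sq_nonneg _).trans hx),
        ENNReal.ofReal_rpow_of_nonneg hε zero_le_two, Real.rpow_two]
      exact ENNReal.ofReal_le_ofReal h1
  refine (ENNReal.rpow_le_rpow h3 (by positivity)).trans (le_of_eq ?_)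
  rw [← ENNReal.rpow_mul]
  simp

end Pool.Agent.Lib.MP_1db5af_an.Dc
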